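import Mathlib
import Pool.Agent.W14.US.Stm
import Pool.Agent.Helper366.IV.CP

set_option autoImplicit false
open Complex MeasureTheory Filter Topology Metric Set
open scoped ContDiff

namespace Pool.Agent.W550.US

open Pool.Agent.W14.US

theorem integrableOn_norm_inv (r : ℝ) :
    IntegrableOn (fun w : ℂ => ‖w‖⁻¹) (ball (0 : ℂ) r) := by
  rw [integrableOn_fun_norm_addHaar (volume : Measure ℂ) (f := fun y : ℝ => y⁻¹)]
  have h1 : IntegrableOn (fun _ : ℝ => (1 : ℝ)) (Ioo 0 r) := by
    simp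
  refine h1.congr_fun ?_ measurableSet_Ioo
  intro y hy
  have hy0 : y ≠ 0 := hy.1.ne'
  simp [Complex.finrank_real_complex, hy0]

theorem locInt : LocallyIntegrable (fun w : ℂ => w⁻¹) volume := by
  intro x
  refine ⟨ball (0 : ℂ) (‖x‖ + 1), isOpen_ball.mem_nhds (by simp), ?_⟩
  refine (integrableOn_norm_inv (‖x‖ + 1)).mono' ?_ ?_
  · exact (measurable_inv : Measurable (fun w : ℂ => w⁻¹)).aestronglyMeasurable
  · exact Eventually.of_forall fun w => by rw [norm_inv]

open scoped Convolution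

/-- the convolution form -/
theorem conv_eq (g : ℂ → ℂ) (z : ℂ) :
    ((fun w : ℂ => w⁻¹) ⋆[ContinuousLinearMap.mul ℝ ℂ, volume] g) z = ∫ w, g (z - w) * w⁻¹ := by
  rw [convolution_def]
  apply integral_congr_ae
  refine Eventually.of_forall fun w => ?_
  simp only [ContinuousLinearMap.mul_apply']
  ring

theorem integrable_int (g : ℂ → ℂ) (hg : Continuous g) (hc : HasCompactSupport g) (z : ℂ) :
    Integrable (fun w => g (z - w) * w⁻¹) := by
  have h := hc.convolutionExists_right (ContinuousLinearMap.mul ℝ ℂ) locInt hg z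
  refine h.congr (Eventually.of_forall fun w => ?_)
  simp only [ContinuousLinearMap.mul_apply']
  ring

theorem hasFD (g : ℂ → ℂ) (hg : ContDiff ℝ 1 g) (hc : HasCompactSupport g) (z : ℂ) :
    HasFDerivAt (fun z => ∫ w, g (z - w) * w⁻¹)
      (((fun w : ℂ => w⁻¹) ⋆[(ContinuousLinearMap.mul ℝ ℂ).precompR ℂ, volume] fderiv ℝ g) z) z := by
  have h := hc.hasFDerivAt_convolution_right (ContinuousLinearMap.mul ℝ ℂ) locInt hg z
  have e : ((fun w : ℂ => w⁻¹) ⋆[ContinuousLinearMap.mul ℝ ℂ, volume] g)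
      = fun z => ∫ w, g (z - w) * w⁻¹ := funext (conv_eq g)
  rwa [e] at h

theorem fderiv_int (g : ℂ → ℂ) (hg : ContDiff ℝ 1 g) (hc : HasCompactSupport g) (z v : ℂ) :
    fderiv ℝ (fun z => ∫ w, g (z - w) * w⁻¹) z v = ∫ w, fderiv ℝ g (z - w) v * w⁻¹ := by
  rw [(hasFD g hg hc z).fderiv,
    convolution_precompR_apply (ContinuousLinearMap.mul ℝ ℂ) locInt (hc.fderiv ℝ)
      (hg.continuous_fderiv one_ne_zero)]
  rw [convolution_def]
  apply integral_congr_ae
  refine Eventually.of_forall fun w => ?_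
  simp only [ContinuousLinearMap.mul_apply']
  ring

theorem der : S_DER := by
  intro g hg
  obtain ⟨hg, hc⟩ := hg
  have hg1 : ContDiff ℝ 1 g := hg.of_le (by exact_mod_cast le_top)
  have hD : Continuous (fderiv ℝ g) := hg1.continuous_fderiv one_ne_zero
  have hDc : HasCompactSupport (fderiv ℝ g) := hc.fderiv ℝ
  have hv : ∀ v : ℂ, Continuous (fun w => fderiv ℝ g w v) := fun v => hD.clm_apply continuous_const
  have hvc : ∀ v : ℂ, HasCompactSupport (fun w => fderiv ℝ g w v) := fun v =>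
    hDc.comp_left (g := fun L : ℂ →L[ℝ] ℂ => L v) (by simp)
  have hT : T g = fun z => ((1 / Real.pi : ℝ) : ℂ) * ∫ w, g (z - w) * w⁻¹ := rfl
  have hHF : ∀ z, HasFDerivAt (T g) (((1 / Real.pi : ℝ) : ℂ) •
      (((fun w : ℂ => w⁻¹) ⋆[(ContinuousLinearMap.mul ℝ ℂ).precompR ℂ, volume] fderiv ℝ g) z)) z := by
    intro z
    rw [hT]
    exact (hasFD g hg1 hc z).const_mul _
  have hfd : ∀ z v, fderiv ℝ (T g) z v = ((1 / Real.pi : ℝ) : ℂ) * ∫ w, fderiv ℝ g (z - w) v * w⁻¹ := by
    intro z v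
    rw [(hHF z).fderiv, ← fderiv_int g hg1 hc z v, (hasFD g hg1 hc z).fderiv]
    rfl
  have hpi : (Real.pi : ℂ) ≠ 0 := by exact_mod_cast Real.pi_ne_zero
  have hdb : ∀ z, T (db g) z = g z := by
    intro z
    have h := Pool.Agent.Helper366.IV.cauchy_pompeiu g hg1 hc z
    have h2 : ∫ w, db g (z - w) * w⁻¹ = Real.pi * g z := by
      rw [← h]
      apply integral_congr_ae
      refine Eventually.of_forall fun w => ?_
      simp only [db, div_eq_mul_inv]
    simp only [T]
    rw [h2]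
    push_cast
    field_simp
  have hint : ∀ z v, Integrable (fun w => fderiv ℝ g (z - w) v * w⁻¹) := fun z v =>
    integrable_int (fun w => fderiv ℝ g w v) (hv v) (hvc v) z
  refine ⟨fun z => (hHF z).differentiableAt, fun z => ⟨hdb z, ?_, ?_⟩⟩
  · rw [← hdb z]
    have e1 : T (db g) z = ((1 / Real.pi : ℝ) : ℂ) * ((∫ w, fderiv ℝ g (z - w) 1 * w⁻¹) / 2 +
        (I / 2) * ∫ w, fderiv ℝ g (z - w) I * w⁻¹) := by
      simp only [T]
      congr 1
      rw [div_eq_mul_inv, mul_comm _ ((2 : ℂ)⁻¹), ← integral_const_mul, ← integral_const_mul,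
        ← integral_add ((hint z 1).const_mul _) ((hint z I).const_mul _)]
      apply integral_congr_ae
      refine Eventually.of_forall fun w => ?_
      simp only [db]
      ring
    rw [e1]
    simp only [db, hfd]
    ring
  · have e1 : T (dd g) z = ((1 / Real.pi : ℝ) : ℂ) * ((∫ w, fderiv ℝ g (z - w) 1 * w⁻¹) / 2 -
        (I / 2) * ∫ w, fderiv ℝ g (z - w) I * w⁻¹) := by
      simp only [T]
      congr 1
      rw [div_eq_mul_inv, mul_comm _ ((2 : ℂ)⁻¹), ← integral_const_mul, ← integral_const_mul,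
        ← integral_sub ((hint z 1).const_mul _) ((hint z I).const_mul _)]
      apply integral_congr_ae
      refine Eventually.of_forall fun w => ?_
      simp only [dd]
      ring
    rw [e1]
    simp only [dd, hfd]
    ring

end Pool.Agent.W550.US
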